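import Pool.Agent.Helper31.SLEightFinal

/-!
# `SL(2,8)` has a 2-block whose decomposition matrix is not unitriangular
-/

open Module Matrix Matrix.SpecialLinearGroup
open scoped MatrixGroups
open Pool.Agent.Helper31.Brauer

namespace Pool.Agent.Results.MP_5c3aa2_al.SLTwoEight

/-- The field with eight elements. -/
abbrev F8 : Type := GaloisField 2 3

noncomputable instance : Fintype F8 := Fintype.ofFinite F8
noncomputable instance : DecidableEq F8 := Classical.decEq F8

lemma card_F8 : Nat.card F8 = 8 := by
  rw [GaloisField.card 2 3 (by norm_num)]; norm_num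

lemma fcard_F8 : Fintype.card F8 = 8 := by
  rw [← Nat.card_eq_fintype_card, card_F8]

lemma quasisimple : IsQuasisimple SL(2, F8) := by
  refine ⟨?_, ?_⟩
  · have h2 : ∃ a : F8, a ≠ 0 ∧ a ^ 2 ≠ 1 := by
      have : ({0, 1} : Finset F8) ≠ Finset.univ := by
        intro h
        have h1 := congrArg Finset.card h
        rw [Finset.card_univ, fcard_F8] at h1
        have h3 : ({0, 1} : Finset F8).card ≤ 2 := Finset.card_le_two
        omega
      obtain ⟨a, ha⟩ : ∃ a : F8, a ∉ ({0, 1} : Finset F8) := by
        by_contra hcon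
        push Not at hcon
        exact this (Finset.eq_univ_iff_forall.mpr hcon)
      simp only [Finset.mem_insert, Finset.mem_singleton, not_or] at ha
      refine ⟨a, ha.1, fun h => ha.2 ?_⟩
      have h2 : (2 : F8) = 0 := CharTwo.two_eq_zero
      have h3 : (a - 1) ^ 2 = 0 := by linear_combination h - (a - 1) * h2
      exact sub_eq_zero.mp (pow_eq_zero_iff (two_ne_zero) |>.mp h3)
    obtain ⟨a, ha, hasq⟩ := h2
    exact Matrix.SL2.commutator_eq_top ha hasq
  · exact Matrix.ProjectiveSpecialLinearGroup.rank_two_simple (by rw [card_F8]; norm_num)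

/-- there is a quotient of the ring of algebraic integers which is a field of characteristic 2 -/
lemma exists_system : ∃ (F : Type) (_ : Field F) (_ : CharP F 2) (red : AlgInt →+* F),
    Function.Surjective red := by
  have hne : (Ideal.span {(2 : AlgInt)}) ≠ ⊤ := by
    rw [Ne, Ideal.span_singleton_eq_top]
    intro hu
    obtain ⟨y, hy⟩ := hu.exists_left_inv
    have hy' : (y : ℂ) * 2 = 1 := by
      have h := congrArg (Subtype.val) hy
      have h2 : ((2 : AlgInt) : ℂ) = 2 := rfl
      rw [← h2]
      exact h
    have hy2 : (y : ℂ) = algebraMap ℚ ℂ (1 / 2) := by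
      have h2 : (2 : ℂ) ≠ 0 := two_ne_zero
      field_simp at hy' ⊢
      rw [map_div₀]
      simp only [map_one, map_ofNat]
      field_simp
      exact hy'
    have hint : IsIntegral ℤ ((1 / 2 : ℚ)) := by
      have h1 : IsIntegral ℤ (y : ℂ) := y.2
      rw [hy2] at h1
      exact (isIntegral_algebraMap_iff (algebraMap ℚ ℂ).injective).mp h1
    obtain ⟨n, hn⟩ := IsIntegrallyClosed.isIntegral_iff.mp hint
    have h3 : (n : ℚ) = 1 / 2 := by simpa using hn
    have h4 : (2 * n : ℚ) = 1 := by rw [h3]; norm_num
    have h5 : 2 * n = 1 := by exact_mod_cast h4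
    omega
  obtain ⟨M, hM, hle⟩ := Ideal.exists_le_maximal _ hne
  let _ : Field (AlgInt ⧸ M) := Ideal.Quotient.field M
  have h2 : ((2 : ℕ) : AlgInt ⧸ M) = 0 := by
    have : (2 : AlgInt) ∈ M := hle (Ideal.mem_span_singleton_self _)
    have h := Ideal.Quotient.eq_zero_iff_mem.mpr this
    rw [map_ofNat] at h
    exact_mod_cast h
  have hchar : CharP (AlgInt ⧸ M) 2 := by
    have := CharP.exists (AlgInt ⧸ M)
    obtain ⟨p, hp⟩ := this
    have hd : p ∣ 2 := (CharP.cast_eq_zero_iff (AlgInt ⧸ M) p 2).mp h2
    rcases (Nat.dvd_prime Nat.prime_two).mp hd with h | h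
    · subst h
      exact absurd hp (by
        intro hp
        exact CharP.char_ne_one (AlgInt ⧸ M) 1 rfl)
    · subst h; exact hp
  exact ⟨AlgInt ⧸ M, inferInstance, hchar, Ideal.Quotient.mk M, Ideal.Quotient.mk_surjective⟩

/-- **Disproof of Q1 of MP_5c3aa2_al.** `SL(2,8)` is a (quasi-)simple group of Lie type. For every
`2`-modular system in the sense of Brauer characters, i.e. for every surjective ring homomorphism
`red` from the ring of algebraic integers onto a field `F` of characteristic `2` (and there are
such), there is a `2`-block of `SL(2,8)` whose decomposition matrix is not unitriangular. -/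
theorem result :
    Nat.card F8 = 8 ∧ IsQuasisimple SL(2, F8) ∧
    (∃ (F : Type) (_ : Field F) (_ : CharP F 2) (red : AlgInt →+* F), Function.Surjective red) ∧
    ∀ (F : Type) [Field F] [CharP F 2] (red : AlgInt →+* F), Function.Surjective red →
      ∃ lam : SL(2, F8) → F, IsBlock lam ∧
        ∀ d : ↥(IrrB red lam) → ↥(IBrB (G := SL(2, F8)) 2 red lam) →₀ ℕ,
          IsDecompositionMatrix 2 red lam d → ¬ Unitriangular d :=
  ⟨card_F8, quasisimple, exists_system, fun _ _ _ red hred =>
    Pool.Agent.Helper31.SLEF.main red fcard_F8 hred⟩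

end Pool.Agent.Results.MP_5c3aa2_al.SLTwoEight
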