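import Pool.Agent.Helper79.TLP.E3
import Pool.Agent.Helper79.TLP.G8
import Pool.Agent.Helper74.TL.S6
import Pool.Agent.Helper79.TL.S2
import Pool.Agent.Helper79.TL.S5

/-!
# A double cover of `PSL(3, 4)` has a 3-block whose decomposition matrix is not unitriangular
-/

open Module Matrix
open scoped MatrixGroups
open Pool.Agent.Helper31.Brauer Pool.Agent.Helper79.TL

namespace Pool.Agent.Results.MP_5c3aa2_al.TwoLThreeFour

/-- **Disproof of Q1 of MP_5c3aa2_al in non-defining characteristic.** There is a quasi-simple
finite group `G` with centre of order 2 such that `G` modulo its centre is isomorphic to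
`PSL(3, K)`, `K` the field with four elements (so `G` is of Lie type in characteristic `2`), with
the following property. For every `3`-modular system, i.e. for every surjective ring homomorphism
`red` from the ring of algebraic integers onto a field `F` of characteristic `3` (and there are
such), there is a `3`-block of `G` whose decomposition matrix is not unitriangular. -/
theorem result :
    ∃ (G : Type) (_ : Group G) (_ : Fintype G) (K : Type) (_ : Field K),
      Nat.card K = 4 ∧ IsQuasisimple G ∧ Nat.card (Subgroup.center G) = 2 ∧
      Nonempty (G ⧸ Subgroup.center G ≃* PSL(3, K)) ∧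
      (∃ (F : Type) (_ : Field F) (_ : CharP F 3) (red : AlgInt →+* F), Function.Surjective red) ∧
      ∀ (F : Type) [Field F] [CharP F 3] (red : AlgInt →+* F), Function.Surjective red →
        ∃ lam : G → F, IsBlock lam ∧
          ∀ d : ↥(IrrB red lam) → ↥(IBrB (G := G) 3 red lam) →₀ ℕ,
            IsDecompositionMatrix 3 red lam d → ¬ Unitriangular d := by
  obtain ⟨h1, h2, h3⟩ := GG_psl_of S2.center_iff
  have hft : Fintype ↥GG := Fintype.ofFinite _
  refine ⟨↥GG, inferInstance, hft, F4, inferInstance, S6.card_F4, h2, h3, h1,
    S6.exists_system3, ?_⟩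
  intro F _ _ red hred
  exact E3.main red hred good_DG (nat F) (G8.natRep_nat F)

end Pool.Agent.Results.MP_5c3aa2_al.TwoLThreeFour
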